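import Pool.Agent.Lib.MP_31701c_co.Main

/-!
# MP_31701c_co : `A_n(x)` has only real roots for every `n ≥ 1`

The definitions used in the statement (`RR.des`, `RR.IsEDP`, `RR.maxEntry`, `RR.stackSort`, `RR.edp`,
`RR.A`) are in `Pool/Agent/Lib/MP_31701c_co/Stmt.lean`.

Outline of the proof. With `x = 1 - 1/e²`, `0 < e < 1`, the numbers `e^n A_n(x)/(n-1)!` are the power
sums `S_n(e) = ∑ ρ^{-n}` of the inverse roots of the entire function `H_e(z) = ∑ h_m(e) z^m/m!`, the
Laplace transform of a free Meixner law. The roots of smallest modulus are a conjugate pair
`z_1, conj z_1` which dominates `S_n`, and the argument of `z_1` runs from `π/2` to `0` as `e` runs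
from `0` to `1`; this gives `⌊n/2⌋` sign changes. For `e ≤ 0.999875` this is shown with Landau's
inequality and kernel-checked certificates, for larger `e` by an asymptotic analysis with explicit
constants (and a direct coefficient estimate for the points closest to `e = 1`); for `n ≤ 99` the
sign pattern is checked by a kernel computation.
-/

set_option autoImplicit false

namespace Pool.Agent.Results.MP_31701c_co.RealRooted

open Polynomial

/-- For every `n ≥ 1` the polynomial `A_n` is not zero and all its complex roots are real. -/
theorem result : ∀ n : ℕ, 1 ≤ n →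
    RR.A n ≠ 0 ∧ ∀ z : ℂ, aeval z (RR.A n) = 0 → z.im = 0 :=
  fun _ hn => RR.real_rooted hn

end Pool.Agent.Results.MP_31701c_co.RealRooted
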